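import Mathlib

/-!
Rational functions over a field of constants: the relative form of uniruledness.
-/

set_option autoImplicit false
set_option linter.overlappingInstances false
set_option linter.unusedSectionVars false
set_option maxHeartbeats 4000000
set_option synthInstance.maxHeartbeats 400000

open IntermediateField

namespace Pool.Agent.U393.UT

/-- The variety `V` with the function field `L`, of dimension `n`, is covered by rational curves in the
fibres of `V ⇢ X`, where `U` is the function field of `X`: there is a variety `M` of dimension `n - 1`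
and a dominant rational map `M × ℙ¹ ⇢ V` such that `M × ℙ¹ ⇢ X` factors through `M`. -/
def UniruledOver {L : Type} [Field L] [Algebra ℂ L] (U : IntermediateField ℂ L) (n : ℕ) : Prop :=
  ∃ (M : Type) (_ : Field M) (_ : Algebra ℂ M), Algebra.EssFiniteType ℂ M ∧
    Algebra.trdeg ℂ M + 1 = n ∧ ∃ φ : L →ₐ[ℂ] RatFunc M, ∀ z ∈ U,
      φ z ∈ Set.range (algebraMap M (RatFunc M))

section

variable {κ : Type} [Field κ] [Algebra ℂ κ]

theorem trdeg_le_of_alg (F : IntermediateField ℂ κ) {r : ℕ} (v : Fin r → κ)
    (h : ∀ z ∈ F, IsAlgebraic (IntermediateField.adjoin ℂ (Set.range v)) z) :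
    Algebra.trdeg ℂ F ≤ r := by
  let E : IntermediateField ℂ κ := F ⊔ IntermediateField.adjoin ℂ (Set.range v)
  have hvE : ∀ i, v i ∈ E := fun i =>
    (le_sup_right : IntermediateField.adjoin ℂ (Set.range v) ≤ E)
      (IntermediateField.subset_adjoin _ _ ⟨i, rfl⟩)
  let w : Fin r → E := fun i => ⟨v i, hvE i⟩
  have h1 : ∀ z ∈ E, IsAlgebraic (IntermediateField.adjoin ℂ (Set.range v)) z := by
    intro z hz
    let A : IntermediateField (IntermediateField.adjoin ℂ (Set.range v)) κ :=
      algebraicClosure (IntermediateField.adjoin ℂ (Set.range v)) κ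
    have h2 : E ≤ A.restrictScalars ℂ := by
      refine sup_le (fun z hz => ?_) fun z hz => ?_
      · rw [mem_restrictScalars, mem_algebraicClosure_iff]
        exact h z hz
      · rw [mem_restrictScalars]
        exact A.algebraMap_mem ⟨z, hz⟩
    exact mem_algebraicClosure_iff.1 (h2 hz)
  have h3 : Algebra.IsAlgebraic (Algebra.adjoin ℂ (Set.range w)) E := by
    refine ⟨fun z => ?_⟩
    have h4 := h1 z z.2
    rw [IntermediateField.isAlgebraic_adjoin_iff] at h4
    have hmap : ∀ x ∈ Algebra.adjoin ℂ (Set.range v), ∃ y ∈ Algebra.adjoin ℂ (Set.range w),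
        (y : κ) = x := by
      intro x hx
      have h5 : (Algebra.adjoin ℂ (Set.range w)).map E.val = Algebra.adjoin ℂ (Set.range v) := by
        rw [AlgHom.map_adjoin, ← Set.range_comp]
        rfl
      rw [← h5] at hx
      obtain ⟨y, hy, rfl⟩ := hx
      exact ⟨y, hy, rfl⟩
    choose g hg hg' using hmap
    let G : Algebra.adjoin ℂ (Set.range v) →+* Algebra.adjoin ℂ (Set.range w) :=
      { toFun := fun x => ⟨g x x.2, hg x x.2⟩
        map_one' := by
          apply Subtype.ext; apply Subtype.ext
          change ((g _ _ : E) : κ) = 1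
          rw [hg']
          rfl
        map_mul' := fun a b => by
          apply Subtype.ext; apply Subtype.ext
          change ((g _ _ : E) : κ) = (g _ _ : E) * (g _ _ : E)
          rw [hg', hg', hg']
          rfl
        map_zero' := by
          apply Subtype.ext; apply Subtype.ext
          change ((g _ _ : E) : κ) = 0
          rw [hg']
          rfl
        map_add' := fun a b => by
          apply Subtype.ext; apply Subtype.ext
          change ((g _ _ : E) : κ) = (g _ _ : E) + (g _ _ : E)
          rw [hg', hg', hg']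
          rfl }
    obtain ⟨p, hp0, hp⟩ := h4
    refine ⟨p.map G, ?_, ?_⟩
    · rw [Polynomial.map_ne_zero_iff]
      · exact hp0
      · intro a b hab
        have h6 := congrArg (fun x : Algebra.adjoin ℂ (Set.range w) => ((x : E) : κ)) hab
        apply Subtype.ext
        rw [← hg' a a.2, ← hg' b b.2]
        exact h6
    · apply Subtype.ext
      change E.val (Polynomial.aeval z (p.map G)) = 0
      rw [Polynomial.aeval_def, Polynomial.eval₂_map]
      rw [← AlgHom.coe_toRingHom, Polynomial.hom_eval₂]
      rw [Polynomial.aeval_def] at hp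
      rw [← hp]
      congr 1
      ext a
      change ((g a a.2 : E) : κ) = a
      exact hg' _ _
  have h4 : Algebra.trdeg ℂ E ≤ Cardinal.mk (Set.range w) :=
    Algebra.IsAlgebraic.trdeg_le_cardinalMk ℂ (Set.range w)
  have h5 : Cardinal.mk (Set.range w) ≤ r := by
    refine Cardinal.mk_range_le.trans ?_
    rw [Cardinal.mk_fin]
  have h6 : Algebra.trdeg ℂ F ≤ Algebra.trdeg ℂ E :=
    _root_.trdeg_le_of_injective (IntermediateField.inclusion (le_sup_left : F ≤ E))
      (IntermediateField.inclusion (le_sup_left : F ≤ E)).injective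
  exact h6.trans (h4.trans h5)

/-- embedding into the rational functions over a small field of constants -/
theorem pack {L : Type} [Field L] [Algebra ℂ L] (φ : L →ₐ[ℂ] κ) (Λ : IntermediateField ℂ κ) (t : κ)
    (hess : Algebra.EssFiniteType ℂ Λ) {r : ℕ} (hr : Algebra.trdeg ℂ Λ ≤ r)
    (hL : Algebra.trdeg ℂ L = (r + 1 : ℕ)) (h : ∀ a, φ a ∈ Λ⟮t⟯) (U : IntermediateField ℂ L)
    (hU : ∀ z ∈ U, φ z ∈ Λ) : UniruledOver U (r + 1) := by
  let E : IntermediateField ℂ κ := Λ⟮t⟯.restrictScalars ℂ
  have t0 : IsScalarTower ℂ Λ Λ⟮t⟯ := inferInstance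
  let ψ : L →ₐ[ℂ] Λ⟮t⟯ :=
    { toFun := fun a => ⟨φ a, h a⟩
      map_one' := Subtype.ext (map_one φ)
      map_mul' := fun a b => Subtype.ext (map_mul φ a b)
      map_zero' := Subtype.ext (map_zero φ)
      map_add' := fun a b => Subtype.ext (map_add φ a b)
      commutes' := fun c => Subtype.ext (φ.commutes c) }
  have h1 : Algebra.trdeg ℂ L ≤ Algebra.trdeg ℂ Λ⟮t⟯ :=
    _root_.trdeg_le_of_injective ψ ψ.injective
  have h2 := _root_.trdeg_add_eq ℂ Λ (A := Λ⟮t⟯)
  have ht : Transcendental Λ t := by
    intro hcon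
    have h3 : Algebra.IsAlgebraic Λ Λ⟮t⟯ :=
      IntermediateField.isAlgebraic_adjoin_simple hcon.isIntegral
    rw [_root_.trdeg_eq_zero (R := Λ) (A := Λ⟮t⟯), add_zero] at h2
    rw [hL, ← h2] at h1
    have h4 := h1.trans hr
    rw [Nat.cast_le] at h4
    omega
  have h3 : Algebra.trdeg Λ Λ⟮t⟯ = 1 := by
    have e := RatFunc.algEquivOfTranscendental t ht
    rw [← e.trdeg_eq]
    have h4 := Polynomial.trdeg_of_isDomain (R := Λ)
    rw [← h4]
    symm
    have h5 : IsTranscendenceBasis Λ (fun _ : Unit => (RatFunc.X : RatFunc Λ)) := by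
      have hi : AlgebraicIndependent Λ (fun _ : Unit => (RatFunc.X : RatFunc Λ)) := by
        rw [algebraicIndependent_unique_type_iff]
        exact RatFunc.transcendental_X
      rw [hi.isTranscendenceBasis_iff_isAlgebraic, ← IntermediateField.isAlgebraic_adjoin_iff_top,
        Set.range_const, RatFunc.adjoin_X]
      exact ⟨fun z => isAlgebraic_algebraMap (⟨z, trivial⟩ : (⊤ : IntermediateField Λ (RatFunc Λ)))⟩
    have h6 := h5.cardinalMk_eq_trdeg
    rw [← h6, h4]
    simp
  rw [h3] at h2
  refine ⟨Λ, inferInstance, inferInstance, hess, ?_, ?_⟩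
  · apply le_antisymm
    · push_cast
      gcongr
    · rw [h2, ← hL]
      exact h1
  · let e := RatFunc.algEquivOfTranscendental t ht
    refine ⟨((e.symm.restrictScalars ℂ : Λ⟮t⟯ ≃ₐ[ℂ] RatFunc Λ) : Λ⟮t⟯ →ₐ[ℂ] RatFunc Λ).comp ψ,
      fun z hz => ⟨⟨φ z, hU z hz⟩, ?_⟩⟩
    change _ = e.symm (ψ z)
    rw [← e.symm.commutes]
    rfl

end

end Pool.Agent.U393.UT
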