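import Pool.Agent.U192.TD.Uni
import Pool.Agent.W619.Y.Unir

/-!
If the image `W` of a variety `V` over a positive base `X` is uniruled then `V` is uniruled, by
rational curves in the fibres over `X`.
-/

set_option autoImplicit false
set_option linter.overlappingInstances false
set_option linter.unusedSectionVars false

open FF IntermediateField Pool.Agent.W602.GT Pool.Agent.W603.LV Pool.Agent.W619.PQ
  Pool.Agent.Y172

namespace Pool.Agent.U393.UT

/-- the ruled cover -/
theorem exists_ruled {K : Type} [Field K] [Algebra ℂ K] [Algebra.EssFiniteType ℂ K] {n : ℕ}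
    (hn : Algebra.trdeg ℂ K = n) (h : IsUniruled ℂ K n) :
    ∃ (R : Type) (_ : Field R) (_ : Algebra ℂ R) (_ : Algebra K R) (_ : IsScalarTower ℂ K R)
      (_ : FiniteDimensional K R) (M1 : IntermediateField ℂ R) (t : R),
      Transcendental M1 t ∧ IntermediateField.adjoin M1 {t} = ⊤ := by
  obtain ⟨M, _, _, hM, htr, ⟨f⟩⟩ := h
  let _ : Algebra K (RatFunc M) := f.toRingHom.toAlgebra
  have t1 : IsScalarTower ℂ K (RatFunc M) := IsScalarTower.of_algebraMap_eq fun c => by
    change _ = f (algebraMap ℂ K c)
    rw [f.commutes]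
  have hFF : IsFF M (RatFunc M) := by
    refine IsFF.of_finite (f := (RatFunc.X : RatFunc M)) RatFunc.transcendental_X ?_
    rw [RatFunc.adjoin_X]
    exact Module.Finite.of_surjective (Algebra.linearMap (⊤ : IntermediateField M (RatFunc M))
      (RatFunc M)) fun z => ⟨⟨z, trivial⟩, rfl⟩
  have hess0 : Algebra.EssFiniteType M (RatFunc M) := hFF.ess
  have hessR : Algebra.EssFiniteType ℂ (RatFunc M) := Algebra.EssFiniteType.comp ℂ M (RatFunc M)
  have hR : Algebra.trdeg ℂ (RatFunc M) = n := by
    rw [← _root_.trdeg_add_eq ℂ M (A := RatFunc M), hFF.trdeg]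
    exact htr
  obtain ⟨y, -, hy, -⟩ := exists_crd hn
  have hyR : AlgebraicIndependent ℂ (fun i => f (y i)) := hy.1.map' f.injective
  have hyb : IsTranscendenceBasis ℂ (fun i => f (y i)) := by
    refine hyR.isTranscendenceBasis_of_lift_trdeg_le_of_finite ?_
    rw [hR]
    simp
  have halg : Algebra.IsAlgebraic K (RatFunc M) := by
    have h1 : Algebra.IsAlgebraic (IntermediateField.adjoin ℂ (Set.range fun i => f (y i)))
      (RatFunc M) := hyb.isAlgebraic_field
    refine ⟨fun z => ?_⟩
    have h2 := h1.isAlgebraic z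
    have hle : IntermediateField.adjoin ℂ (Set.range fun i => f (y i)) ≤ f.fieldRange := by
      rw [adjoin_le_iff]
      rintro _ ⟨i, rfl⟩
      exact ⟨y i, rfl⟩
    let e : K ≃ₐ[ℂ] f.fieldRange := AlgEquiv.ofInjectiveField f
    let g : IntermediateField.adjoin ℂ (Set.range fun i => f (y i)) →+* K :=
      (e.symm : f.fieldRange →+* K).comp (inclusion hle).toRingHom
    refine h2.ringHom_of_comp_eq g (RingHom.id _) g.injective ?_
    ext w
    change f (e.symm (inclusion hle w)) = (w : RatFunc M)
    have h3 : e (e.symm (inclusion hle w)) = inclusion hle w := e.apply_symm_apply _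
    exact congrArg Subtype.val h3
  have hfd : FiniteDimensional K (RatFunc M) := by
    have h1 : Algebra.EssFiniteType K (RatFunc M) := Algebra.EssFiniteType.of_comp ℂ K (RatFunc M)
    obtain ⟨s, hs⟩ := IntermediateField.fg_top K (RatFunc M)
    have h2 : FiniteDimensional K (IntermediateField.adjoin K (s : Set (RatFunc M))) :=
      IntermediateField.finiteDimensional_adjoin fun x _ => (halg.isAlgebraic x).isIntegral
    rw [hs] at h2
    exact h2.equiv IntermediateField.topEquiv.toLinearEquiv
  obtain ⟨M', h1, h2⟩ := Pool.Agent.W619.Y.ratFunc_ruled (k := ℂ) (M := M)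
  exact ⟨RatFunc M, inferInstance, inferInstance, inferInstance, t1, hfd, M', RatFunc.X, h1, h2⟩

/-- a common Galois extension -/
theorem exists_common {K L R : Type} [Field K] [Field L] [Field R] [Algebra ℂ K] [Algebra ℂ L]
    [Algebra ℂ R] [Algebra K L] [Algebra K R] [IsScalarTower ℂ K L] [IsScalarTower ℂ K R]
    [FiniteDimensional K L] [FiniteDimensional K R] :
    ∃ (Ω : Type) (_ : Field Ω) (_ : Algebra ℂ Ω) (_ : Algebra K Ω) (_ : Algebra L Ω)
      (_ : Algebra R Ω), IsScalarTower ℂ K Ω ∧ IsScalarTower ℂ L Ω ∧ IsScalarTower ℂ R Ω ∧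
      IsScalarTower K L Ω ∧ IsScalarTower K R Ω ∧ FiniteDimensional K Ω ∧ IsGalois K Ω := by
  have hcK : CharZero K := charZero_of_injective_algebraMap (algebraMap ℂ K).injective
  let A := AlgebraicClosure K
  let τL : L →ₐ[K] A := IsAlgClosed.lift
  let τR : R →ₐ[K] A := IsAlgClosed.lift
  have h1 : FiniteDimensional K τL.fieldRange :=
    Module.Finite.of_surjective τL.rangeRestrict.toLinearMap τL.rangeRestrict_surjective
  have h2 : FiniteDimensional K τR.fieldRange :=
    Module.Finite.of_surjective τR.rangeRestrict.toLinearMap τR.rangeRestrict_surjective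
  let E : IntermediateField K A := τL.fieldRange ⊔ τR.fieldRange
  have h3 : FiniteDimensional K E := IntermediateField.finiteDimensional_sup _ _
  let Ω := IntermediateField.normalClosure K E A
  have hfin : FiniteDimensional K Ω := inferInstance
  have hnorm : Normal K Ω := inferInstance
  have hgal : IsGalois K Ω := IsGalois.mk
  have hle : E ≤ Ω := IntermediateField.le_normalClosure E
  let ιL : L →ₐ[K] Ω := (IntermediateField.inclusion (le_sup_left.trans hle)).comp
    (τL.rangeRestrict : L →ₐ[K] τL.fieldRange)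
  let ιR : R →ₐ[K] Ω := (IntermediateField.inclusion (le_sup_right.trans hle)).comp
    (τR.rangeRestrict : R →ₐ[K] τR.fieldRange)
  let ik : Algebra ℂ Ω := ((algebraMap K Ω).comp (algebraMap ℂ K)).toAlgebra
  let iL : Algebra L Ω := ιL.toRingHom.toAlgebra
  let iR : Algebra R Ω := ιR.toRingHom.toAlgebra
  refine ⟨Ω, inferInstance, ik, inferInstance, iL, iR, ?_, ?_, ?_, ?_, ?_, hfin, hgal⟩
  · exact IsScalarTower.of_algebraMap_eq fun _ => rfl
  · refine IsScalarTower.of_algebraMap_eq fun c => ?_
    change algebraMap K Ω (algebraMap ℂ K c) = ιL (algebraMap ℂ L c)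
    rw [IsScalarTower.algebraMap_apply ℂ K L, ιL.commutes]
  · refine IsScalarTower.of_algebraMap_eq fun c => ?_
    change algebraMap K Ω (algebraMap ℂ K c) = ιR (algebraMap ℂ R c)
    rw [IsScalarTower.algebraMap_apply ℂ K R, ιR.commutes]
  · exact IsScalarTower.of_algebraMap_eq fun c => (ιL.commutes c).symm
  · exact IsScalarTower.of_algebraMap_eq fun c => (ιR.commutes c).symm

end Pool.Agent.U393.UT
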