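import Pool.Agent.U192.PT.Trans
import Pool.Agent.U192.TD.Uni

/-!
Kodaira dimension `-∞` of the images of products.
-/

set_option autoImplicit false
set_option linter.overlappingInstances false
set_option linter.unusedSectionVars false

open FF Pool.Agent.W619.PQ
open Pool.Agent.W602.GT (Divisorial DerReg IsPluri)
open Pool.Agent.Y174 (PairSec PairKod IsPull)
open Pool.Agent.U192.PN (IsProd)
open Pool.Agent.U192.PE (BdGe)

namespace Pool.Agent.U393.UT

theorem neg_iff {K : Type} [Field K] [Algebra ℂ K] {n : ℕ} :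
    KodairaNeg ℂ K n ↔ ¬ PairKod ℂ K n (fun _ => 0) 0 := by
  constructor
  · intro h1 h2
    exact Pool.Agent.U192.TD.not_neg_of_kodGe (Pool.Agent.U192.TD.kodGe_of_pair h2) h1
  · intro h m hm ω hω hreg D
    by_contra hD
    apply h
    refine ⟨m, hm, fun _ => ω, fun _ => ⟨hω, fun v hv G hG => ?_⟩, D, fun _ => hD, ?_⟩
    · rcases hreg v hv G hG with h0 | h0
      · exact Or.inl h0
      · refine Or.inr ⟨1, Finset.mem_singleton_self _, one_ne_zero, ?_⟩
        rw [Nat.cast_zero, zero_mul, mul_zero, sub_zero]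
        exact_mod_cast h0
    · exact (algebraicIndependent_empty_type_iff).2 (algebraMap ℂ K).injective

theorem pull_zero {K L : Type} [Field K] [Field L] [Algebra ℂ K] [Algebra ℂ L] [Algebra K L] :
    IsPull (K := K) (L := L) (fun _ : Place ℂ K => (0 : ℝ)) (fun _ : Place ℂ L => (0 : ℝ)) := by
  intro v w e he
  have h1 : (1 : ℝ) ≤ e := by exact_mod_cast he.1
  rw [sub_zero, mul_one, max_eq_left (by linarith)]

theorem prod_zero {L : Type} [Field L] [Algebra ℂ L] (U T : IntermediateField ℂ L) {n : ℕ} :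
    IsProd U T n (fun _ : Place ℂ L => (0 : ℝ)) (fun _ : Place ℂ T => (0 : ℝ)) :=
  fun _ _ _ => ⟨fun _ => le_refl _, fun _ _ _ => le_max_left _ _⟩

theorem ge_zero {K L : Type} [Field K] [Field L] [Algebra ℂ K] [Algebra ℂ L] [Algebra K L]
    (U T : IntermediateField ℂ L) {n : ℕ} :
    BdGe U T n (fun _ : Place ℂ K => (0 : ℝ)) (fun _ : Place ℂ T => (0 : ℝ)) := by
  intro P Q v e e' _ h _ _
  have h1 : (1 : ℝ) ≤ e' := by exact_mod_cast h.1
  rw [sub_zero, mul_one, mul_zero]
  linarith

end Pool.Agent.U393.UT
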