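import Pool.Agent.U393.UT.Pack
import Pool.Agent.W619.PQ.Defs

/-!
Products with a uniruled factor.
-/

set_option autoImplicit false
set_option linter.overlappingInstances false
set_option linter.unusedSectionVars false
set_option maxHeartbeats 4000000
set_option synthInstance.maxHeartbeats 400000

open IntermediateField Pool.Agent.W619.PQ

namespace Pool.Agent.U393.UT

section

variable {A B : Type} [Field A] [Field B] [Algebra ℂ A] [Algebra ℂ B]

theorem fg_map [Algebra.EssFiniteType ℂ A] (f : A →ₐ[ℂ] B) :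
    ∃ s : Finset B, IntermediateField.adjoin ℂ (s : Set B) = f.fieldRange := by
  classical
  obtain ⟨S, hS⟩ := IntermediateField.fg_top ℂ A
  refine ⟨S.image f, ?_⟩
  rw [Finset.coe_image, ← IntermediateField.adjoin_map, hS, AlgHom.fieldRange_eq_map]

theorem alg_push (f : A →ₐ[ℂ] B) {ι : Type} (y : ι → A) {a : A}
    (h : IsAlgebraic (IntermediateField.adjoin ℂ (Set.range y)) a) :
    IsAlgebraic (IntermediateField.adjoin ℂ (Set.range (f ∘ y))) (f a) := by
  have h1 : (IntermediateField.adjoin ℂ (Set.range y)).map f =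
      IntermediateField.adjoin ℂ (Set.range (f ∘ y)) := by
    rw [IntermediateField.adjoin_map, ← Set.range_comp]
  have h2 : ∀ z : IntermediateField.adjoin ℂ (Set.range y),
      f z ∈ IntermediateField.adjoin ℂ (Set.range (f ∘ y)) := by
    intro z
    rw [← h1]
    exact ⟨z, z.2, rfl⟩
  let G : IntermediateField.adjoin ℂ (Set.range y) →+*
      IntermediateField.adjoin ℂ (Set.range (f ∘ y)) :=
    { toFun := fun z => ⟨f z, h2 z⟩
      map_one' := Subtype.ext (map_one f)
      map_mul' := fun a b => Subtype.ext (map_mul f (a : A) (b : A))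
      map_zero' := Subtype.ext (map_zero f)
      map_add' := fun a b => Subtype.ext (map_add f (a : A) (b : A)) }
  obtain ⟨p, hp0, hp⟩ := h
  refine ⟨p.map G, (Polynomial.map_ne_zero_iff G.injective).2 hp0, ?_⟩
  rw [Polynomial.aeval_def, Polynomial.eval₂_map]
  rw [Polynomial.aeval_def] at hp
  have h3 := congrArg f hp
  rw [← AlgHom.coe_toRingHom, Polynomial.hom_eval₂, map_zero] at h3
  exact h3

theorem alg_basis {n : ℕ} (hn : Algebra.trdeg ℂ A = n) (f : A →ₐ[ℂ] B) :
    ∃ x : Fin n → B, (∀ i, x i ∈ f.fieldRange) ∧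
      ∀ z ∈ f.fieldRange, IsAlgebraic (IntermediateField.adjoin ℂ (Set.range x)) z := by
  obtain ⟨s, hs⟩ := exists_isTranscendenceBasis ℂ A
  have h1 := hs.cardinalMk_eq_trdeg
  rw [hn] at h1
  obtain ⟨e⟩ : Nonempty (s ≃ Fin n) := by
    rw [← Cardinal.eq, h1, Cardinal.mk_fin]
  refine ⟨fun i => f (e.symm i), fun i => ⟨_, rfl⟩, ?_⟩
  rintro _ ⟨a, rfl⟩
  have h2 := alg_push f (((↑) : s → A)) (hs.isAlgebraic_field.isAlgebraic a)
  have h3 : Set.range (f ∘ ((↑) : s → A)) = Set.range fun i => f (e.symm i) := by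
    ext z
    constructor
    · rintro ⟨i, rfl⟩
      exact ⟨e i, by simp⟩
    · rintro ⟨i, rfl⟩
      exact ⟨e.symm i, rfl⟩
  rw [← h3]
  exact h2

end

theorem trdeg_ratFunc (M : Type) [Field M] : Algebra.trdeg M (RatFunc M) = 1 := by
  have h5 : IsTranscendenceBasis M (fun _ : Unit => (RatFunc.X : RatFunc M)) := by
    have hi : AlgebraicIndependent M (fun _ : Unit => (RatFunc.X : RatFunc M)) := by
      rw [algebraicIndependent_unique_type_iff]
      exact RatFunc.transcendental_X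
    rw [hi.isTranscendenceBasis_iff_isAlgebraic, ← IntermediateField.isAlgebraic_adjoin_iff_top,
      Set.range_const, RatFunc.adjoin_X]
    exact ⟨fun z => isAlgebraic_algebraMap (⟨z, trivial⟩ : (⊤ : IntermediateField M (RatFunc M)))⟩
  have h6 := h5.cardinalMk_eq_trdeg
  rw [← h6]
  simp

theorem trdeg_total' {M : Type} [Field M] [Algebra ℂ M] {n : ℕ}
    (htr : Algebra.trdeg ℂ M + 1 = n) : Algebra.trdeg ℂ (RatFunc M) = n := by
  rw [← _root_.trdeg_add_eq ℂ M (A := RatFunc M), trdeg_ratFunc]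
  exact htr

/-- an injection between fields of the same finite transcendence degree -/
theorem alg_of_trdeg {K E : Type} [Field K] [Field E] [Algebra ℂ K] [Algebra ℂ E] [Algebra K E]
    [IsScalarTower ℂ K E] {n : ℕ} (hn : Algebra.trdeg ℂ K = n) (hE : Algebra.trdeg ℂ E = n) :
    Algebra.IsAlgebraic K E := by
  rw [← _root_.trdeg_eq_zero_iff]
  have h1 := _root_.trdeg_add_eq ℂ K (A := E)
  rw [hn, hE] at h1
  have h2 : Algebra.trdeg K E ≤ n := by
    rw [← h1]
    exact le_add_self
  obtain ⟨k, hk⟩ := Cardinal.lt_aleph0.1 (lt_of_le_of_lt h2 Cardinal.natCast_lt_aleph0)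
  rw [hk] at h1 ⊢
  have h3 : n + k = n := by exact_mod_cast h1
  have : k = 0 := by omega
  rw [this]
  rfl

/-- **Products with a uniruled factor.** -/
theorem prod_uniruled {L : Type} [Field L] [Algebra ℂ L] (U T : IntermediateField ℂ L)
    [Algebra.EssFiniteType ℂ U] {d r : ℕ} (hUT : U ⊔ T = ⊤) (hU : Algebra.trdeg ℂ U = d)
    (hT : Algebra.trdeg ℂ T = (r + 1 : ℕ)) (hL : Algebra.trdeg ℂ L = (d + r + 1 : ℕ))
    (h : IsUniruled ℂ T (r + 1)) : UniruledOver U (d + r + 1) := by
  classical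
  obtain ⟨M, _, _, hM, htr, ⟨φ⟩⟩ := h
  have htr' : Algebra.trdeg ℂ M = r := by
    have h1 : Algebra.trdeg ℂ M ≤ ((r + 1 : ℕ) : Cardinal) := by
      rw [← htr]
      exact le_self_add
    obtain ⟨k, hk⟩ := Cardinal.lt_aleph0.1 (lt_of_le_of_lt h1 Cardinal.natCast_lt_aleph0)
    rw [hk] at htr ⊢
    have h2 : k + 1 = r + 1 := by exact_mod_cast htr
    have : k = r := by omega
    rw [this]
  let iT : Algebra T (RatFunc M) := φ.toRingHom.toAlgebra
  have t1 : IsScalarTower ℂ T (RatFunc M) := IsScalarTower.of_algebraMap_eq fun c => by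
    change _ = φ (algebraMap ℂ T c)
    rw [φ.commutes]
  have halg : Algebra.IsAlgebraic T (RatFunc M) := alg_of_trdeg hT (trdeg_total' htr)
  let κ := AlgebraicClosure L
  have t2 : IsScalarTower ℂ T κ := inferInstance
  let τ : RatFunc M →ₐ[T] κ := IsAlgClosed.lift
  let τ' : RatFunc M →ₐ[ℂ] κ := τ.restrictScalars ℂ
  let α : M →ₐ[ℂ] κ := τ'.comp (IsScalarTower.toAlgHom ℂ M (RatFunc M))
  let φ0 : L →ₐ[ℂ] κ := IsScalarTower.toAlgHom ℂ L κ
  let β : U →ₐ[ℂ] κ := φ0.comp U.val
  let Λ : IntermediateField ℂ κ := β.fieldRange ⊔ α.fieldRange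
  let t : κ := τ' RatFunc.X
  have hess : Algebra.EssFiniteType ℂ Λ := by
    obtain ⟨s1, h1⟩ := fg_map β
    obtain ⟨s2, h2⟩ := fg_map α
    rw [IntermediateField.essFiniteType_iff]
    refine ⟨s1 ∪ s2, ?_⟩
    rw [Finset.coe_union, IntermediateField.adjoin_union, h1, h2]
  obtain ⟨x, -, hx⟩ := alg_basis hU β
  obtain ⟨y, -, hy⟩ := alg_basis htr' α
  have hr : Algebra.trdeg ℂ Λ ≤ (d + r : ℕ) := by
    refine trdeg_le_of_alg Λ (Fin.append x y) ?_
    have hxs : Set.range x ⊆ Set.range (Fin.append x y) := by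
      rintro _ ⟨i, rfl⟩
      exact ⟨Fin.castAdd r i, Fin.append_left _ _ _⟩
    have hys : Set.range y ⊆ Set.range (Fin.append x y) := by
      rintro _ ⟨i, rfl⟩
      exact ⟨Fin.natAdd d i, Fin.append_right _ _ _⟩
    have hmono : ∀ {s s' : Set κ} (_ : s ⊆ s') {z : κ},
        IsAlgebraic (IntermediateField.adjoin ℂ s) z →
        IsAlgebraic (IntermediateField.adjoin ℂ s') z := by
      intro s s' hs z hz
      have hle : IntermediateField.adjoin ℂ s ≤ IntermediateField.adjoin ℂ s' :=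
        IntermediateField.adjoin.mono ℂ s s' hs
      let G : IntermediateField.adjoin ℂ s →+* IntermediateField.adjoin ℂ s' :=
        (IntermediateField.inclusion hle).toRingHom
      obtain ⟨p, hp0, hp⟩ := hz
      refine ⟨p.map G, (Polynomial.map_ne_zero_iff G.injective).2 hp0, ?_⟩
      rw [Polynomial.aeval_def, Polynomial.eval₂_map]
      rw [Polynomial.aeval_def] at hp
      exact hp
    have hle : Λ ≤ (algebraicClosure (IntermediateField.adjoin ℂ
        (Set.range (Fin.append x y))) κ).restrictScalars ℂ := by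
      refine sup_le (fun z hz => ?_) fun z hz => ?_
      · rw [mem_restrictScalars, mem_algebraicClosure_iff]
        exact hmono hxs (hx z hz)
      · rw [mem_restrictScalars, mem_algebraicClosure_iff]
        exact hmono hys (hy z hz)
    exact fun z hz => mem_algebraicClosure_iff.1 (hle hz)
  have hmem : ∀ a : L, φ0 a ∈ Λ⟮t⟯ := by
    have h1 : (⊤ : IntermediateField ℂ L) ≤ (Λ⟮t⟯.restrictScalars ℂ).comap φ0 := by
      rw [← hUT]
      refine sup_le (fun z hz => ?_) fun z hz => ?_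
      · change φ0 z ∈ Λ⟮t⟯
        refine Λ⟮t⟯.algebraMap_mem ⟨_, ?_⟩
        exact (le_sup_left : β.fieldRange ≤ Λ) ⟨⟨z, hz⟩, rfl⟩
      · change φ0 z ∈ Λ⟮t⟯
        have h2 : φ0 z = τ' (φ ⟨z, hz⟩) := (τ.commutes ⟨z, hz⟩).symm
        rw [h2]
        have h3 : φ ⟨z, hz⟩ ∈ IntermediateField.adjoin M {(RatFunc.X : RatFunc M)} := by
          rw [RatFunc.adjoin_X]
          trivial
        obtain ⟨p, q, hpq⟩ := (mem_adjoin_simple_iff (F := M) _).1 h3
        have h4 : ∀ P : Polynomial M, τ' (Polynomial.aeval RatFunc.X P) ∈ Λ⟮t⟯ := by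
          intro P
          rw [Polynomial.aeval_eq_sum_range, map_sum]
          refine sum_mem fun i _ => ?_
          rw [Algebra.smul_def, map_mul, map_pow]
          refine mul_mem ?_ (pow_mem (mem_adjoin_simple_self Λ t) i)
          refine Λ⟮t⟯.algebraMap_mem ⟨_, ?_⟩
          exact (le_sup_right : α.fieldRange ≤ Λ) ⟨P.coeff i, rfl⟩
        rw [hpq, map_div₀]
        exact div_mem (h4 p) (h4 q)
    exact fun a => h1 (by trivial : a ∈ (⊤ : IntermediateField ℂ L))
  exact pack φ0 Λ t hess hr hL hmem U fun z hz => (le_sup_left : β.fieldRange ≤ Λ) ⟨⟨z, hz⟩, rfl⟩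

end Pool.Agent.U393.UT
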