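import Pool.Agent.U393.UT.Cut
import Pool.Agent.U393.UT.Conv

/-!
The factor of a product which is covered by rational curves in the fibres.
-/

set_option autoImplicit false
set_option linter.overlappingInstances false
set_option linter.unusedSectionVars false
set_option maxHeartbeats 4000000
set_option synthInstance.maxHeartbeats 400000

open IntermediateField Pool.Agent.W619.PQ

namespace Pool.Agent.U393.UT

/-- completing a family to a transcendence basis -/
theorem complete {M : Type} [Field M] [Algebra ℂ M] {d r : ℕ} {u : Fin d → M}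
    (hu : AlgebraicIndependent ℂ u) (hM : Algebra.trdeg ℂ M = (d + r : ℕ)) :
    ∃ v : Fin r → M, ∀ z : M,
      IsAlgebraic (IntermediateField.adjoin ℂ (Set.range u ∪ Set.range v)) z := by
  classical
  obtain ⟨t, hst, ht⟩ := exists_isTranscendenceBasis_superset (R := ℂ) (s := Set.range u)
    hu.to_subtype_range
  have h1 := ht.cardinalMk_eq_trdeg
  rw [hM] at h1
  have hfin : t.Finite := by
    apply Cardinal.lt_aleph0_iff_set_finite.1
    rw [h1]
    exact Cardinal.natCast_lt_aleph0
  have hcard : t.ncard = d + r := by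
    rw [← Set.cast_ncard hfin] at h1
    exact_mod_cast h1
  have hcu : (Set.range u).ncard = d := by
    rw [← Set.image_univ, Set.ncard_image_of_injective _ hu.injective, Set.ncard_univ,
      Nat.card_eq_fintype_card, Fintype.card_fin]
  have hdiff : (t \ Set.range u).ncard = r := by
    rw [Set.ncard_sdiff hst (Set.finite_range u), hcard, hcu]
    omega
  have hfd : (t \ Set.range u).Finite := hfin.subset Set.sdiff_subset
  obtain ⟨e⟩ : Nonempty (Fin r ≃ (t \ Set.range u : Set M)) := by
    have : Finite (t \ Set.range u : Set M) := hfd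
    exact ⟨(Finite.equivFinOfCardEq hdiff).symm⟩
  refine ⟨fun i => (e i : M), fun z => ?_⟩
  have h2 := ht.isAlgebraic_field.isAlgebraic z
  have h3 : Set.range u ∪ Set.range (fun i => (e i : M)) = t := by
    have h4 : Set.range (fun i => (e i : M)) = t \ Set.range u := by
      ext z
      constructor
      · rintro ⟨i, rfl⟩
        exact (e i).2
      · intro hz
        exact ⟨e.symm ⟨z, hz⟩, by simp⟩
    rw [h4, Set.union_sdiff_cancel hst]
  rw [h3]
  rwa [Subtype.range_coe] at h2

/-- **The factor of a product which is covered by rational curves in the fibres.** -/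
theorem product_down {L : Type} [Field L] [Algebra ℂ L] (U T : IntermediateField ℂ L)
    [Algebra.EssFiniteType ℂ T] {d r : ℕ} (hUT : U ⊔ T = ⊤) (hU : Algebra.trdeg ℂ U = d)
    (hT : Algebra.trdeg ℂ T = (r + 1 : ℕ)) (hL : Algebra.trdeg ℂ L = (d + r + 1 : ℕ))
    (h : UniruledOver U (d + r + 1)) : IsUniruled ℂ T (r + 1) := by
  classical
  obtain ⟨M, _, _, hM, htr, φ, hφ⟩ := h
  have htr' : Algebra.trdeg ℂ M = (d + r : ℕ) := by
    have h1 : Algebra.trdeg ℂ M ≤ ((d + r + 1 : ℕ) : Cardinal) := by
      rw [← htr]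
      exact le_self_add
    obtain ⟨k, hk⟩ := Cardinal.lt_aleph0.1 (lt_of_le_of_lt h1 Cardinal.natCast_lt_aleph0)
    rw [hk] at htr ⊢
    have h2 : k + 1 = d + r + 1 := by exact_mod_cast htr
    have : k = d + r := by omega
    rw [this]
  let E := RatFunc M
  let iL : Algebra L E := φ.toRingHom.toAlgebra
  have t1 : IsScalarTower ℂ L E := IsScalarTower.of_algebraMap_eq fun c => by
    change _ = φ (algebraMap ℂ L c)
    rw [φ.commutes]
  have hE : Algebra.trdeg ℂ E = (d + r + 1 : ℕ) := trdeg_total' htr
  have halg : Algebra.IsAlgebraic L E := alg_of_trdeg hL hE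
  let f : T →ₐ[ℂ] E := φ.comp T.val
  let T' : IntermediateField ℂ E := f.fieldRange
  let eT : T ≃ₐ[ℂ] T' := AlgEquiv.ofInjectiveField f
  have hTess : Algebra.EssFiniteType ℂ T' := by
    obtain ⟨s, hs⟩ := fg_map f
    rw [IntermediateField.essFiniteType_iff]
    exact ⟨s, hs⟩
  have hT' : Algebra.trdeg ℂ T' = (r + 1 : ℕ) := by
    rw [← hT]
    exact eT.symm.trdeg_eq
  -- the constants
  let ι : M →ₐ[ℂ] E := IsScalarTower.toAlgHom ℂ M E
  let C0 : IntermediateField ℂ E := ι.fieldRange
  -- a transcendence basis of `U`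
  obtain ⟨x, hxU, hx⟩ : ∃ x : Fin d → U, AlgebraicIndependent ℂ x ∧
      ∀ z : U, IsAlgebraic (IntermediateField.adjoin ℂ (Set.range x)) z := by
    obtain ⟨s, hs⟩ := exists_isTranscendenceBasis ℂ U
    have h1 := hs.cardinalMk_eq_trdeg
    rw [hU] at h1
    obtain ⟨e⟩ : Nonempty (s ≃ Fin d) := by
      rw [← Cardinal.eq, h1, Cardinal.mk_fin]
    refine ⟨fun i => e.symm i, hs.1.comp _ e.symm.injective, fun z => ?_⟩
    have h2 := hs.isAlgebraic_field.isAlgebraic z
    have h3 : Set.range ((↑) : s → U) = Set.range fun i => ((e.symm i : s) : U) := by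
      ext z
      constructor
      · rintro ⟨i, rfl⟩
        exact ⟨e i, by simp⟩
      · rintro ⟨i, rfl⟩
        exact ⟨e.symm i, rfl⟩
    rw [h3] at h2
    exact h2
  let g : U →ₐ[ℂ] E := φ.comp U.val
  let u : Fin d → E := fun i => g (x i)
  have huM : ∀ i, ∃ z : M, ι z = u i := fun i => hφ (x i) (x i).2
  choose uM huM using huM
  have huE : AlgebraicIndependent ℂ u := hxU.map' (f := g) g.injective
  have huMi : AlgebraicIndependent ℂ uM := by
    refine AlgebraicIndependent.of_comp ι ?_
    have h1 : ι ∘ uM = u := funext huM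
    rw [h1]
    exact huE
  obtain ⟨vM, hvM⟩ := complete huMi htr'
  let v : Fin r → E := fun i => ι (vM i)
  have hC : ∀ z ∈ C0, IsAlgebraic (Algebra.adjoin ℂ (Set.range u ∪ Set.range v)) z := by
    rintro _ ⟨z, rfl⟩
    have h1 : Set.range (Sum.elim uM vM) = Set.range uM ∪ Set.range vM := Set.Sum.elim_range _ _
    have h2 := hvM z
    rw [← h1] at h2
    have h3 := alg_push ι (Sum.elim uM vM) h2
    have h4 : Set.range (ι ∘ Sum.elim uM vM) = Set.range u ∪ Set.range v := by
      have h5 : ι ∘ Sum.elim uM vM = Sum.elim u v := by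
        funext i
        rcases i with i | i
        · exact huM i
        · rfl
      rw [h5, Set.Sum.elim_range]
    rw [h4, IntermediateField.isAlgebraic_adjoin_iff] at h3
    exact h3
  have hTC : ∀ z ∈ T', z ∈ C0⟮(RatFunc.X : E)⟯ := by
    intro z _
    have h3 : z ∈ IntermediateField.adjoin M {(RatFunc.X : RatFunc M)} := by
      rw [RatFunc.adjoin_X]
      trivial
    obtain ⟨p, q, hpq⟩ := (mem_adjoin_simple_iff (F := M) _).1 h3
    have h4 : ∀ P : Polynomial M, (Polynomial.aeval (RatFunc.X : RatFunc M) P : E) ∈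
        C0⟮(RatFunc.X : E)⟯ := by
      intro P
      rw [Polynomial.aeval_eq_sum_range]
      refine sum_mem fun i _ => ?_
      rw [Algebra.smul_def]
      refine mul_mem ?_ (pow_mem (mem_adjoin_simple_self C0 (RatFunc.X : E)) i)
      exact C0⟮(RatFunc.X : E)⟯.algebraMap_mem ⟨_, ⟨P.coeff i, rfl⟩⟩
    rw [hpq]
    exact div_mem (h4 p) (h4 q)
  -- everything is algebraic over `T'(u)`
  have hTu : Algebra.IsAlgebraic (Algebra.adjoin T' (Set.range u)) E := by
    let A0 : IntermediateField T' E := IntermediateField.adjoin T' (Set.range u)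
    let A1 : IntermediateField A0 E := algebraicClosure A0 E
    have h1 : ∀ z : L, φ z ∈ A1 := by
      have h2 : (⊤ : IntermediateField ℂ L) ≤
          ((A1.restrictScalars T').restrictScalars ℂ).comap φ := by
        rw [← hUT]
        refine sup_le (fun z hz => ?_) fun z hz => ?_
        · change φ z ∈ A1
          rw [mem_algebraicClosure_iff]
          have h3 := alg_push g x (hx ⟨z, hz⟩)
          have h4 : ∀ w ∈ IntermediateField.adjoin ℂ (Set.range (g ∘ x)), w ∈ A0 := by
            intro w hw
            have h5 : IntermediateField.adjoin ℂ (Set.range (g ∘ x)) ≤ A0.restrictScalars ℂ := by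
              rw [adjoin_le_iff]
              exact IntermediateField.subset_adjoin T' _
            exact h5 hw
          let G : IntermediateField.adjoin ℂ (Set.range (g ∘ x)) →+* A0 :=
            { toFun := fun w => ⟨w, h4 w w.2⟩
              map_one' := rfl
              map_mul' := fun _ _ => rfl
              map_zero' := rfl
              map_add' := fun _ _ => rfl }
          obtain ⟨p, hp0, hp⟩ := h3
          refine ⟨p.map G, (Polynomial.map_ne_zero_iff G.injective).2 hp0, ?_⟩
          rw [Polynomial.aeval_def, Polynomial.eval₂_map]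
          rw [Polynomial.aeval_def] at hp
          exact hp
        · change φ z ∈ A1
          refine A1.algebraMap_mem ⟨_, ?_⟩
          exact A0.algebraMap_mem ⟨_, ⟨⟨z, hz⟩, rfl⟩⟩
      exact fun z => h2 (by trivial : z ∈ (⊤ : IntermediateField ℂ L))
    have h2 : Algebra.IsAlgebraic A0 E := by
      have h3 : Algebra.IsAlgebraic A1 E := by
        refine ⟨fun z => ?_⟩
        obtain ⟨p, hp0, hp⟩ := halg.isAlgebraic z
        let G : L →+* A1 :=
          { toFun := fun w => ⟨φ w, h1 w⟩
            map_one' := Subtype.ext (map_one φ)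
            map_mul' := fun a b => Subtype.ext (map_mul φ a b)
            map_zero' := Subtype.ext (map_zero φ)
            map_add' := fun a b => Subtype.ext (map_add φ a b) }
        refine ⟨p.map G, (Polynomial.map_ne_zero_iff G.injective).2 hp0, ?_⟩
        rw [Polynomial.aeval_def, Polynomial.eval₂_map]
        rw [Polynomial.aeval_def] at hp
        exact hp
      have h4 : Algebra.IsAlgebraic A0 A1 := algebraicClosure.isAlgebraic A0 E
      exact Algebra.IsAlgebraic.trans A0 A1 E
    rwa [IntermediateField.isAlgebraic_adjoin_iff_top] at h2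
  have hTE : Algebra.trdeg T' E = d := by
    have h1 := _root_.trdeg_add_eq ℂ T' (A := E)
    rw [hT', hE] at h1
    have h2 : Algebra.trdeg T' E ≤ ((d + r + 1 : ℕ) : Cardinal) := by
      rw [← h1]
      exact le_add_self
    obtain ⟨k, hk⟩ := Cardinal.lt_aleph0.1 (lt_of_le_of_lt h2 Cardinal.natCast_lt_aleph0)
    rw [hk] at h1 ⊢
    have h3 : r + 1 + k = d + r + 1 := by exact_mod_cast h1
    have : k = d := by omega
    rw [this]
  have hu : AlgebraicIndependent T' u := by
    have h1 := Algebra.IsAlgebraic.isTranscendenceBasis_of_lift_le_trdeg_of_finite T' u (by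
      rw [hTE]
      simp)
    exact h1.1
  obtain ⟨M', i1, i2, h1, h2, ψ, -⟩ := cut T' C0 (RatFunc.X : E) u v hT' hC hTC hu
    (fun z => hTu.isAlgebraic z)
  exact ⟨M', i1, i2, h1, h2, ⟨ψ.comp (eT : T →ₐ[ℂ] T')⟩⟩

end Pool.Agent.U393.UT
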