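import Pool.Agent.U393.UT.Up
import Pool.Agent.U393.UT.Pack

/-!
If the image `W` of a variety `V` over a positive base `X` is uniruled then `V` is covered by rational
curves in the fibres over `X`.
-/

set_option autoImplicit false
set_option linter.overlappingInstances false
set_option linter.unusedSectionVars false
set_option maxHeartbeats 400000
set_option synthInstance.maxHeartbeats 400000

open FF IntermediateField Pool.Agent.W602.GT Pool.Agent.W603.LV Pool.Agent.W619.PQ
  Pool.Agent.Y172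
open Pool.Agent.U192.NM (dg pol)
open Pool.Agent.U192.PB (up)

namespace Pool.Agent.U393.UT

/-- **Uniruled images.** -/
theorem cover_uniruled {L : Type} [Field L] [Algebra ℂ L] [Algebra.EssFiniteType ℂ L]
    (U : IntermediateField ℂ L) {K : Type} [Field K] [Algebra ℂ K] [Algebra K L]
    [IsScalarTower ℂ K L] [FiniteDimensional K L]
    (hKU : IntermediateField.adjoin K (U : Set L) = ⊤) {κ d n m : ℕ}
    (X : Fin κ → Finset U) (hX : IntermediateField.adjoin ℂ (⋃ i, (X i : Set U)) = ⊤)
    (hU : Algebra.trdeg ℂ U = d) (hn : Algebra.trdeg ℂ K = n) (hm : 1 ≤ m)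
    {α : (Fin d → Derivation ℂ U U) → U} (hα : IsPluri m α) (hα0 : α ≠ 0)
    (hpos : ∀ v : Place ℂ U, Divisorial d v → ∀ G : Fin d → Derivation ℂ U U,
      (∀ i, DerReg v (G i)) → α G = 0 ∨
      ∑ i, 2 * (m : ℤ) * ((dg K (up U X) i : ℤ) - 1) * pol (X i) v ≤
        v.ord (α G))
    (h : IsUniruled ℂ K n) : UniruledOver U n := by
  classical
  have hKe : Algebra.EssFiniteType ℂ K := Pool.Agent.TH466.QG.ess_below (K := L)
  obtain ⟨R, _, _, _, _, _, M1, t, ht, htop⟩ := exists_ruled hn h
  obtain ⟨Ω, _, _, _, _, _, t1, t2, t3, t4, t5, hfin, hgal⟩ := exists_common (K := K) (L := L) (R := R)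
  have hft : Fintype (Ω ≃ₐ[K] Ω) := Fintype.ofFinite _
  obtain ⟨x, Ex, hx, hEx⟩ := exists_crd (k := ℂ) (K := U) hU
  have ha : α Ex ≠ 0 := by
    intro h0
    apply hα0
    funext D
    have h1 := pluri_coord hx hEx (m := m) (ω := α) hα D
    rw [h1, h0, mul_zero]
    rfl
  obtain ⟨s, hs0, hs⟩ := Pool.Agent.U192.TD.tensor_reg (K := K) (L := L) Ω U X hX hU hn hα hpos
    hx hEx
  have hnR : Algebra.trdeg ℂ R = n := trdeg_up (K := K) hn
  have hfR : FiniteDimensional R Ω := FiniteDimensional.right K R Ω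
  obtain ⟨-, E, i0, -, -, -, -, hE0M, hEt, -⟩ := Pool.Agent.R882.UA.frame (k := ℂ) hnR ht htop
  obtain ⟨DΩ, hDΩ⟩ := exists_lift (K := R) (L := Ω) hnR (E i0)
  have hxL : AlgebraicIndependent ℂ (fun l => (x l : L)) :=
    hx.1.map' (f := U.val) U.val.toRingHom.injective
  have hxΩ : AlgebraicIndependent ℂ (fun l => algebraMap L Ω (x l)) :=
    hxL.map' (f := IsScalarTower.toAlgHom ℂ L Ω) (algebraMap L Ω).injective
  have ha' : algebraMap L Ω (α Ex : U) ≠ 0 := by
    rw [Ne, map_eq_zero]
    exact fun h0 => ha (Subtype.ext h0)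
  have hDx : ∀ l, DΩ (algebraMap L Ω (x l)) = 0 := fun l =>
    Pool.Agent.U192.TD.ruled_const (K := K) (L := R) (Ω := Ω) hn hxΩ ha' hm hs0 hs ht htop hEt
      hE0M hDΩ AlgEquiv.refl l
  -- the field of constants
  let C0 : IntermediateField ℂ Ω :=
    { carrier := {f | DΩ f = 0}
      mul_mem' := fun {f g} hf hg => by
        change DΩ (f * g) = 0
        rw [DΩ.leibniz, show DΩ f = 0 from hf, show DΩ g = 0 from hg]
        simp
      add_mem' := fun {f g} hf hg => by
        change DΩ (f + g) = 0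
        rw [map_add, show DΩ f = 0 from hf, show DΩ g = 0 from hg, add_zero]
      algebraMap_mem' := fun c => DΩ.map_algebraMap c
      inv_mem' := fun f hf => by
        change DΩ f⁻¹ = 0
        rw [DΩ.leibniz_inv, show DΩ f = 0 from hf, smul_zero] }
  have hUC : ∀ u ∈ U, algebraMap L Ω u ∈ C0 := by
    intro u hu
    have tU : IsScalarTower ℂ U Ω := IsScalarTower.of_algebraMap_eq fun c => by
      change algebraMap ℂ Ω c = algebraMap L Ω (algebraMap ℂ L c)
      rw [← IsScalarTower.algebraMap_apply ℂ L Ω]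
    exact Pool.Agent.W619.TW.der_zero (DΩ.compAlgebraMap U) x hx hDx ⟨u, hu⟩
  let t' : Ω := algebraMap R Ω t
  have hDt : DΩ t' = 1 := by
    change DΩ (algebraMap R Ω t) = 1
    rw [hDΩ, hEt, map_one]
  have htr : Transcendental C0 t' := by
    intro halg
    have h1 := Pool.Agent.R882.WR.der_alg (E := C0) DΩ (fun c hc => hc) halg
    have h2 : DΩ t' = 0 := h1
    rw [hDt] at h2
    exact one_ne_zero h2
  have hnΩ : Algebra.trdeg ℂ Ω = n := trdeg_up (K := K) hn
  have hΩe : Algebra.EssFiniteType ℂ Ω := by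
    have h1 : Algebra.EssFiniteType K Ω := inferInstance
    exact Algebra.EssFiniteType.comp ℂ K Ω
  have hess : Algebra.EssFiniteType ℂ C0 := Pool.Agent.N999.SX.ess_any C0
  obtain ⟨r, rfl⟩ : ∃ r, n = r + 1 := by
    have h1 := h
    obtain ⟨M, _, _, -, h2, -⟩ := h1
    cases n with
    | zero =>
      exfalso
      rw [Nat.cast_zero] at h2
      have h3 : (1 : Cardinal) ≤ 0 := by
        rw [← h2]
        exact le_add_self
      exact absurd h3 (by simp)
    | succ r => exact ⟨r, rfl⟩
  have hr : Algebra.trdeg ℂ C0 ≤ r := by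
    have h1 := _root_.trdeg_add_eq ℂ C0 (A := Ω)
    have h2 : (1 : Cardinal) ≤ Algebra.trdeg C0 Ω := by
      have h3 : AlgebraicIndependent C0 (fun _ : Unit => t') := by
        rw [algebraicIndependent_unique_type_iff]
        exact htr
      have h4 := h3.cardinalMk_le_trdeg
      simpa using h4
    rw [hnΩ] at h1
    obtain ⟨a, ha⟩ := Cardinal.lt_aleph0.1 (lt_of_le_of_lt (le_self_add.trans h1.le)
      (Cardinal.natCast_lt_aleph0 (n := r + 1)))
    obtain ⟨b, hb⟩ := Cardinal.lt_aleph0.1 (lt_of_le_of_lt (le_add_self.trans h1.le)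
      (Cardinal.natCast_lt_aleph0 (n := r + 1)))
    rw [ha, hb] at h1
    rw [hb] at h2
    have h5 : a + b = r + 1 := by exact_mod_cast h1
    have h6 : 1 ≤ b := by exact_mod_cast h2
    rw [ha]
    have : a ≤ r := by omega
    exact_mod_cast this
  have hL : Algebra.trdeg ℂ L = (r + 1 : ℕ) := trdeg_up (K := K) hn
  let φ0 : L →ₐ[ℂ] Ω := IsScalarTower.toAlgHom ℂ L Ω
  have hKC : ∀ z : R, algebraMap R Ω z ∈ C0⟮t'⟯ := by
    intro z
    have h1 : z ∈ IntermediateField.adjoin M1 {t} := by
      rw [htop]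
      trivial
    obtain ⟨p, q, hpq⟩ := (mem_adjoin_simple_iff (F := M1) _).1 h1
    have h4 : ∀ P : Polynomial M1, algebraMap R Ω (Polynomial.aeval t P) ∈ C0⟮t'⟯ := by
      intro P
      rw [Polynomial.aeval_eq_sum_range, map_sum]
      refine sum_mem fun i _ => ?_
      rw [Algebra.smul_def, map_mul, map_pow]
      refine mul_mem ?_ (pow_mem (mem_adjoin_simple_self C0 t') i)
      refine C0⟮t'⟯.algebraMap_mem ⟨_, ?_⟩
      change DΩ (algebraMap R Ω (P.coeff i : R)) = 0
      rw [hDΩ, hE0M, map_zero]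
    rw [hpq, map_div₀]
    exact div_mem (h4 p) (h4 q)
  have hmem : ∀ a, φ0 a ∈ C0⟮t'⟯ := by
    have h1 : ∀ a ∈ IntermediateField.adjoin K (U : Set L), algebraMap L Ω a ∈ C0⟮t'⟯ := by
      intro a ha
      refine IntermediateField.adjoin_induction K
        (p := fun z _ => algebraMap L Ω z ∈ C0⟮t'⟯) ?_ ?_ ?_ ?_ ?_ ha
      · intro u hu
        exact C0⟮t'⟯.algebraMap_mem ⟨_, hUC u hu⟩
      · intro c
        rw [← IsScalarTower.algebraMap_apply K L Ω, IsScalarTower.algebraMap_apply K R Ω]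
        exact hKC _
      · intro a b _ _ ha hb
        rw [map_add]
        exact add_mem ha hb
      · intro a _ ha
        rw [map_inv₀]
        exact inv_mem ha
      · intro a b _ _ ha hb
        rw [map_mul]
        exact mul_mem ha hb
    rw [hKU] at h1
    exact fun a => h1 a trivial
  exact pack φ0 C0 t' hess hr hL hmem U hUC

end Pool.Agent.U393.UT
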