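import Pool.Agent.U393.UT.Pack

/-!
Specialisation: a variety over `ℂ` which is covered by rational curves after an extension of the ground
field is covered by rational curves.
-/

set_option autoImplicit false
set_option linter.overlappingInstances false
set_option linter.unusedSectionVars false
set_option maxHeartbeats 4000000
set_option synthInstance.maxHeartbeats 400000

open IntermediateField

namespace Pool.Agent.U393.UT

/-- a valuation ring with a given centre -/
theorem dominate {P E : Type} [CommRing P] [Field E] (φ : P →+* E) (hφ : Function.Injective φ)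
    (J : Ideal P) (hJ : J ≠ ⊤) :
    ∃ V : ValuationSubring E, (∀ p, φ p ∈ V) ∧ ∀ p ∈ J, φ p ∈ V.nonunits := by
  have hbij : Function.Bijective φ.rangeRestrict :=
    ⟨fun a b h => hφ (congrArg Subtype.val h), φ.rangeRestrict_surjective⟩
  let I : Ideal φ.range := J.map φ.rangeRestrict
  have hI : I ≠ ⊤ := by
    intro h
    apply hJ
    have h1 := Ideal.comap_map_of_bijective φ.rangeRestrict hbij (I := J)
    rw [← h1]
    change I.comap _ = ⊤
    rw [h, Ideal.comap_top]
  obtain ⟨V, h1, h2⟩ := Ideal.image_subset_nonunits_valuationSubring I hI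
  exact ⟨V, fun p => h1 ⟨p, rfl⟩, fun p hp => h2 ⟨φ.rangeRestrict p, Ideal.mem_map_of_mem _ hp, rfl⟩⟩

/-- valuation rings are integrally closed -/
theorem mem_of_int {E : Type} [Field E] {k : Type} [CommRing k] [Algebra k E]
    (V : ValuationSubring E) (R0 : Subalgebra k E) (h : ∀ x ∈ R0, x ∈ V) {w : E}
    (hw : IsIntegral R0 w) : w ∈ V := by
  let G : R0 →+* V :=
    { toFun := fun x => ⟨x, h x x.2⟩
      map_one' := rfl
      map_mul' := fun _ _ => rfl
      map_zero' := rfl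
      map_add' := fun _ _ => rfl }
  have h1 : IsIntegral V w := hw.map_of_comp_eq G (RingHom.id E) (by ext; rfl)
  obtain ⟨y, hy⟩ := (IsIntegrallyClosed.isIntegral_iff (R := V) (K := E)).1 h1
  rw [← hy]
  exact y.2

/-- after inverting one function a given finite set is in the valuation ring -/
theorem mem_of_smul {E : Type} [Field E] {k : Type} [CommRing k] [Algebra k E]
    (V : ValuationSubring E) (R0 : Subalgebra k E) (h : ∀ x ∈ R0, x ∈ V) {w : E} {g : R0}
    (hg : ((g : E))⁻¹ ∈ V) (hw : IsIntegral R0 (g • w)) (hg0 : (g : E) ≠ 0) : w ∈ V := by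
  have h1 := mem_of_int V R0 h hw
  have h2 : w = (g : E)⁻¹ * (g • w) := by
    rw [Algebra.smul_def]
    change w = (g : E)⁻¹ * ((g : E) * w)
    rw [← mul_assoc, inv_mul_cancel₀ hg0, one_mul]
  rw [h2]
  exact V.mul_mem _ _ hg h1

/-- **Specialisation.** -/
theorem cut {E : Type} [Field E] [Algebra ℂ E] (T C0 : IntermediateField ℂ E) (t : E) {d r : ℕ}
    (u : Fin d → E) (v : Fin r → E) [Algebra.EssFiniteType ℂ T]
    (hT : Algebra.trdeg ℂ T = (r + 1 : ℕ))
    (hC : ∀ z ∈ C0, IsAlgebraic (Algebra.adjoin ℂ (Set.range u ∪ Set.range v)) z)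
    (hTC : ∀ z ∈ T, z ∈ C0⟮t⟯) (hu : AlgebraicIndependent T u)
    (hE : ∀ z : E, IsAlgebraic (Algebra.adjoin T (Set.range u)) z) :
    UniruledOver (⊥ : IntermediateField ℂ T) (r + 1) := by
  classical
  -- generators of `T`
  obtain ⟨S, hS⟩ := IntermediateField.fg_top ℂ T
  have hpq : ∀ y : T, ∃ p q : Polynomial C0, (y : E) = Polynomial.aeval t p / Polynomial.aeval t q :=
    fun y => (mem_adjoin_simple_iff (F := C0) (y : E)).1 (hTC y y.2)
  choose p q hpq using hpq
  let X0 : Finset E := S.biUnion fun y =>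
    ((p y).support.image fun i => ((p y).coeff i : E)) ∪
      ((q y).support.image fun i => ((q y).coeff i : E))
  have hX0 : ∀ z ∈ X0, z ∈ C0 := by
    intro z hz
    rw [Finset.mem_biUnion] at hz
    obtain ⟨y, -, hz⟩ := hz
    rw [Finset.mem_union, Finset.mem_image, Finset.mem_image] at hz
    rcases hz with ⟨i, -, rfl⟩ | ⟨i, -, rfl⟩
    · exact ((p y).coeff i).2
    · exact ((q y).coeff i).2
  let R1 : Subalgebra ℂ E := Algebra.adjoin ℂ (Set.range u ∪ Set.range v)
  have hb : ∀ z : E, ∃ b : R1, z ∈ X0 → (b ≠ 0 ∧ IsIntegral R1 (b • z)) := by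
    intro z
    by_cases hz : z ∈ X0
    · obtain ⟨b, h1, h2⟩ := (hC z (hX0 z hz)).exists_integral_multiple
      exact ⟨b, fun _ => ⟨h1, h2⟩⟩
    · exact ⟨0, fun h => absurd h hz⟩
  choose b hb using hb
  let X1 : Finset E := X0 ∪ (Finset.univ.image v) ∪ (X0.image fun z => ((b z : E))⁻¹) ∪ {t} ∪
    (S.image fun y => (Polynomial.aeval t (q y))⁻¹)
  let R2 : Subalgebra T E := Algebra.adjoin T (Set.range u)
  have hR2 : Algebra.IsAlgebraic R2 E := ⟨hE⟩
  obtain ⟨g, hg0, hg⟩ := Algebra.IsAlgebraic.exists_integral_multiples R2 X1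
  have hg0' : (g : E) ≠ 0 := fun h => hg0 (Subtype.ext h)
  -- the polynomial
  obtain ⟨G, hG⟩ : ∃ G : MvPolynomial (Fin d) T, MvPolynomial.aeval u G = (g : E) := by
    have h1 : (g : E) ∈ (MvPolynomial.aeval u : MvPolynomial (Fin d) T →ₐ[T] E).range := by
      rw [← Algebra.adjoin_range_eq_range_aeval]
      exact g.2
    exact h1
  have hG0 : G ≠ 0 := by
    rintro rfl
    rw [map_zero] at hG
    exact hg0' hG.symm
  obtain ⟨c, hc⟩ : ∃ c : Fin d → ℂ, MvPolynomial.eval (fun i => algebraMap ℂ T (c i)) G ≠ 0 := by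
    by_contra hcon
    push Not at hcon
    apply hG0
    refine MvPolynomial.funext_set (fun _ : Fin d => Set.range (algebraMap ℂ T)) (fun i => ?_)
      (p := G) (q := 0) fun x hx => ?_
    · exact Set.infinite_range_of_injective (algebraMap ℂ T).injective
    · have h1 : ∀ i, ∃ c, algebraMap ℂ T c = x i := fun i => hx i trivial
      choose c hc using h1
      have h2 : x = fun i => algebraMap ℂ T (c i) := funext fun i => (hc i).symm
      rw [h2, hcon c, map_zero]
  -- the valuation ring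
  let J : Ideal (MvPolynomial (Fin d) T) :=
    RingHom.ker (MvPolynomial.eval (fun i => algebraMap ℂ T (c i)))
  obtain ⟨V, hV1, hV2⟩ := dominate
    (MvPolynomial.aeval u : MvPolynomial (Fin d) T →ₐ[T] E).toRingHom hu J
    (RingHom.ker_ne_top _)
  have hV1 : ∀ P : MvPolynomial (Fin d) T, MvPolynomial.aeval u P ∈ V := hV1
  have hV2 : ∀ P : MvPolynomial (Fin d) T,
      MvPolynomial.eval (fun i => algebraMap ℂ T (c i)) P = 0 →
      MvPolynomial.aeval u P ∈ V.nonunits := fun P hP => hV2 P hP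
  have hTV : ∀ z : T, (z : E) ∈ V := by
    intro z
    have h1 := hV1 (MvPolynomial.C z)
    rw [MvPolynomial.aeval_C] at h1
    exact h1
  have hkV : ∀ z : ℂ, algebraMap ℂ E z ∈ V := fun z => hTV (algebraMap ℂ T z)
  have huV : ∀ i, u i ∈ V := by
    intro i
    have h1 := hV1 (MvPolynomial.X i)
    rwa [MvPolynomial.aeval_X] at h1
  have hR2V : ∀ x ∈ R2, x ∈ V := by
    intro x hx
    have h1 : x ∈ (MvPolynomial.aeval u : MvPolynomial (Fin d) T →ₐ[T] E).range := by
      rw [← Algebra.adjoin_range_eq_range_aeval]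
      exact hx
    obtain ⟨P, rfl⟩ := h1
    exact hV1 P
  have hgV : ((g : E))⁻¹ ∈ V := by
    let a : T := MvPolynomial.eval (fun i => algebraMap ℂ T (c i)) G
    have ha : a ≠ 0 := hc
    have h1 : MvPolynomial.aeval u (G - MvPolynomial.C a) ∈ V.nonunits := by
      apply hV2
      rw [map_sub, MvPolynomial.eval_C, sub_self]
    rw [map_sub, hG, MvPolynomial.aeval_C] at h1
    change (g : E) - (a : E) ∈ V.nonunits at h1
    have ha0 : (a : E) ≠ 0 := fun h => ha (Subtype.ext h)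
    have h2 : V.valuation (a : E) = 1 := by
      have h3 : V.valuation (a : E) ≤ 1 := (V.valuation_le_one_iff _).2 (hTV a)
      have h4 : V.valuation ((a : E))⁻¹ ≤ 1 := by
        refine (V.valuation_le_one_iff _).2 ?_
        exact hTV (a⁻¹)
      rw [map_inv₀] at h4
      refine le_antisymm h3 ?_
      have h5 : V.valuation (a : E) ≠ 0 := (Valuation.ne_zero_iff _).2 ha0
      exact (inv_le_one₀ (zero_lt_iff.2 h5)).1 h4
    rw [ValuationSubring.mem_nonunits_iff] at h1
    have h3 : V.valuation (g : E) = 1 := by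
      have h4 : (g : E) = ((g : E) - (a : E)) + (a : E) := by ring
      rw [h4, Valuation.map_add_eq_of_lt_right, h2]
      rw [h2]
      exact h1
    rw [← V.valuation_le_one_iff, map_inv₀, h3, inv_one]
  have hX1V : ∀ z ∈ X1, z ∈ V := fun z hz => mem_of_smul V R2 hR2V hgV (hg z hz) hg0'
  have hX0V : ∀ z ∈ X0, z ∈ V := fun z hz => hX1V z (by
    simp only [X1, Finset.mem_union]
    exact Or.inl (Or.inl (Or.inl (Or.inl hz))))
  have hvV : ∀ i, v i ∈ V := fun i => hX1V _ (by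
    simp only [X1, Finset.mem_union]
    exact Or.inl (Or.inl (Or.inl (Or.inr (Finset.mem_image_of_mem v (Finset.mem_univ i))))))
  have hbV : ∀ z ∈ X0, ((b z : E))⁻¹ ∈ V := fun z hz => hX1V _ (by
    simp only [X1, Finset.mem_union]
    exact Or.inl (Or.inl (Or.inr (Finset.mem_image_of_mem _ hz))))
  have htV : t ∈ V := hX1V _ (by
    simp only [X1, Finset.mem_union]
    exact Or.inl (Or.inr (Finset.mem_singleton_self t)))
  have hqV : ∀ y ∈ S, (Polynomial.aeval t (q y))⁻¹ ∈ V := fun y hy => hX1V _ (by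
    simp only [X1, Finset.mem_union]
    exact Or.inr (Finset.mem_image_of_mem _ hy))
  have hR1V : ∀ x ∈ R1, x ∈ V := by
    let V' : Subalgebra ℂ E :=
      { V.toSubring with
        algebraMap_mem' := fun z => hkV z }
    have h1 : R1 ≤ V' := by
      refine Algebra.adjoin_le ?_
      rintro x (⟨i, rfl⟩ | ⟨i, rfl⟩)
      · exact huV i
      · exact hvV i
    exact h1
  -- the residue field
  let κ := IsLocalRing.ResidueField V
  let ρ : V →+* κ := IsLocalRing.residue V
  let ik : ℂ →+* V :=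
    { toFun := fun z => ⟨algebraMap ℂ E z, hkV z⟩
      map_one' := Subtype.ext (map_one _)
      map_mul' := fun a b => Subtype.ext (map_mul _ a b)
      map_zero' := Subtype.ext (map_zero _)
      map_add' := fun a b => Subtype.ext (map_add _ a b) }
  let iκ : Algebra ℂ κ := (ρ.comp ik).toAlgebra
  let τ : T →ₐ[ℂ] κ :=
    { toFun := fun z => ρ ⟨z, hTV z⟩
      map_one' := (congrArg ρ (Subtype.ext rfl)).trans (map_one ρ)
      map_mul' := fun a b => (congrArg ρ (Subtype.ext rfl)).trans (map_mul ρ ⟨a, hTV a⟩ ⟨b, hTV b⟩)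
      map_zero' := (congrArg ρ (Subtype.ext rfl)).trans (map_zero ρ)
      map_add' := fun a b => (congrArg ρ (Subtype.ext rfl)).trans (map_add ρ ⟨a, hTV a⟩ ⟨b, hTV b⟩)
      commutes' := fun z => rfl }
  have hρ0 : ∀ (x : E) (h : x ∈ V), x ∈ V.nonunits → ρ ⟨x, h⟩ = 0 := by
    intro x h hx
    rw [IsLocalRing.residue_eq_zero_iff]
    exact ValuationSubring.coe_mem_nonunits_iff.1 hx
  have hρu : ∀ i, ρ ⟨u i, huV i⟩ = algebraMap ℂ κ (c i) := by
    intro i
    have h1 : u i - algebraMap ℂ E (c i) ∈ V.nonunits := by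
      have h2 := hV2 (MvPolynomial.X i - MvPolynomial.C (algebraMap ℂ T (c i))) (by
        rw [map_sub, MvPolynomial.eval_C, MvPolynomial.eval_X, sub_self])
      rw [map_sub, MvPolynomial.aeval_X, MvPolynomial.aeval_C] at h2
      exact h2
    have h2 := hρ0 _ (V.nonunits_subset h1) h1
    have h3 : (⟨u i - algebraMap ℂ E (c i), V.nonunits_subset h1⟩ : V) = ⟨u i, huV i⟩ - ik (c i) :=
      Subtype.ext rfl
    rw [h3, map_sub, sub_eq_zero] at h2
    exact h2
  let v' : Fin r → κ := fun i => ρ ⟨v i, hvV i⟩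
  let Λ0 : IntermediateField ℂ κ := IntermediateField.adjoin ℂ (Set.range v')
  let Y : Finset κ := (X0.attach.image fun z : {x // x ∈ X0} => ρ ⟨z.1, hX0V z.1 z.2⟩) ∪ (Finset.univ.image v')
  let Λ : IntermediateField ℂ κ := IntermediateField.adjoin ℂ (Y : Set κ)
  have hYmem : ∀ z (h : z ∈ X0), ρ ⟨z, hX0V z h⟩ ∈ Λ := by
    intro z h
    apply IntermediateField.subset_adjoin
    rw [Finset.mem_coe, Finset.mem_union, Finset.mem_image]
    exact Or.inl ⟨⟨z, h⟩, Finset.mem_attach _ _, rfl⟩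
  have hess : Algebra.EssFiniteType ℂ Λ := by
    rw [IntermediateField.essFiniteType_iff]
    exact ⟨Y, rfl⟩
  -- `R1` is mapped to `Λ0`
  let W0 : IntermediateField ℂ κ → Subalgebra ℂ E := fun F =>
    { carrier := {x | ∃ h : x ∈ V, ρ ⟨x, h⟩ ∈ F}
      mul_mem' := by
        rintro a b ⟨ha, ha'⟩ ⟨hb, hb'⟩
        refine ⟨V.mul_mem _ _ ha hb, ?_⟩
        have h1 : (⟨a * b, V.mul_mem _ _ ha hb⟩ : V) = ⟨a, ha⟩ * ⟨b, hb⟩ := rfl
        rw [h1, map_mul]
        exact mul_mem ha' hb'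
      add_mem' := by
        rintro a b ⟨ha, ha'⟩ ⟨hb, hb'⟩
        refine ⟨V.add_mem _ _ ha hb, ?_⟩
        have h1 : (⟨a + b, V.add_mem _ _ ha hb⟩ : V) = ⟨a, ha⟩ + ⟨b, hb⟩ := rfl
        rw [h1, map_add]
        exact add_mem ha' hb'
      algebraMap_mem' := fun z => ⟨hkV z, F.algebraMap_mem z⟩ }
  have hR1W : R1 ≤ W0 Λ0 := by
    refine Algebra.adjoin_le ?_
    rintro x (⟨i, rfl⟩ | ⟨i, rfl⟩)
    · refine ⟨huV i, ?_⟩
      rw [hρu]
      exact Λ0.algebraMap_mem _
    · exact ⟨hvV i, IntermediateField.subset_adjoin _ _ ⟨i, rfl⟩⟩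
  have hR1m : ∀ x : R1, ρ ⟨(x : E), hR1V x x.2⟩ ∈ Λ0 := fun x => (hR1W x.2).2
  let G1 : R1 →+* Λ0 :=
    { toFun := fun x => ⟨ρ ⟨(x : E), hR1V x x.2⟩, hR1m x⟩
      map_one' := Subtype.ext (map_one ρ)
      map_mul' := fun a b => Subtype.ext (map_mul ρ ⟨a, hR1V a a.2⟩ ⟨b, hR1V b b.2⟩)
      map_zero' := Subtype.ext (map_zero ρ)
      map_add' := fun a b => Subtype.ext (map_add ρ ⟨a, hR1V a a.2⟩ ⟨b, hR1V b b.2⟩) }
  let G2 : R1 →+* V :=
    { toFun := fun x => ⟨(x : E), hR1V x x.2⟩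
      map_one' := rfl
      map_mul' := fun _ _ => rfl
      map_zero' := rfl
      map_add' := fun _ _ => rfl }
  have hint : ∀ (w : E) (hw : w ∈ V), IsIntegral R1 w → IsIntegral Λ0 (ρ ⟨w, hw⟩) := by
    rintro w hw ⟨P, hP, hP0⟩
    refine ⟨P.map G1, hP.map G1, ?_⟩
    have h1 : Polynomial.eval₂ G2 ⟨w, hw⟩ P = 0 := by
      apply Subtype.ext
      change V.subtype (Polynomial.eval₂ G2 ⟨w, hw⟩ P) = 0
      rw [Polynomial.hom_eval₂]
      exact hP0
    rw [Polynomial.eval₂_map]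
    have h2 := congrArg ρ h1
    rw [Polynomial.hom_eval₂, map_zero] at h2
    exact h2
  have hmul : ∀ (x y : E) (hx : x ∈ V) (hy : y ∈ V), ρ ⟨x * y, V.mul_mem _ _ hx hy⟩ =
      ρ ⟨x, hx⟩ * ρ ⟨y, hy⟩ := fun x y hx hy => map_mul ρ ⟨x, hx⟩ ⟨y, hy⟩
  have hinv : ∀ (x : E) (hx : x ∈ V) (hy : x⁻¹ ∈ V), ρ ⟨x⁻¹, hy⟩ = (ρ ⟨x, hx⟩)⁻¹ := by
    intro x hx hy
    by_cases h0 : x = 0
    · subst h0
      have h1 : (⟨(0 : E), hx⟩ : V) = 0 := rfl
      have h2 : (⟨(0 : E)⁻¹, hy⟩ : V) = 0 := Subtype.ext inv_zero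
      rw [h1, h2, map_zero, inv_zero]
    · have h1 := hmul x x⁻¹ hx hy
      have h2 : (⟨x * x⁻¹, V.mul_mem _ _ hx hy⟩ : V) = 1 := Subtype.ext (mul_inv_cancel₀ h0)
      rw [h2, map_one] at h1
      exact (eq_inv_of_mul_eq_one_right h1.symm)
  have halg : ∀ z ∈ Λ, IsAlgebraic Λ0 z := by
    have h1 : Λ ≤ (algebraicClosure Λ0 κ).restrictScalars ℂ := by
      rw [adjoin_le_iff]
      intro z hz
      rw [Finset.mem_coe, Finset.mem_union, Finset.mem_image, Finset.mem_image] at hz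
      rw [SetLike.mem_coe, mem_restrictScalars, mem_algebraicClosure_iff]
      rcases hz with ⟨⟨z, hz⟩, -, rfl⟩ | ⟨i, -, rfl⟩
      · obtain ⟨hb0, hbi⟩ := hb z hz
        have hbV' : ((b z : R1) : E) ∈ V := hR1V _ (b z).2
        have hsm : (b z • z) = (b z : E) * z := by
          rw [Algebra.smul_def]
          rfl
        rw [hsm] at hbi
        have h2 := hint _ (V.mul_mem _ _ hbV' (hX0V z hz)) hbi
        rw [hmul _ _ hbV' (hX0V z hz)] at h2
        have h3 : ρ ⟨((b z : R1) : E), hbV'⟩ ≠ 0 := by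
          intro h
          have h4 := hmul _ _ hbV' (hbV z hz)
          have h5 : (⟨((b z : R1) : E) * ((b z : R1) : E)⁻¹, V.mul_mem _ _ hbV' (hbV z hz)⟩ : V) =
              1 := Subtype.ext (mul_inv_cancel₀ (fun h => hb0 (Subtype.ext h)))
          rw [h5, map_one, h, zero_mul] at h4
          exact one_ne_zero h4
        have h4 : IsAlgebraic Λ0 (ρ ⟨((b z : R1) : E), hbV'⟩) :=
          isAlgebraic_algebraMap (⟨_, hR1m (b z)⟩ : Λ0)
        have h5 := h4.inv.mul h2.isAlgebraic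
        rwa [← mul_assoc, inv_mul_cancel₀ h3, one_mul] at h5
      · exact isAlgebraic_algebraMap
          (⟨v' i, IntermediateField.subset_adjoin _ _ ⟨i, rfl⟩⟩ : Λ0)
    exact fun z hz => mem_algebraicClosure_iff.1 (h1 hz)
  have hr := trdeg_le_of_alg Λ v' halg
  -- the image of `T`
  let t' : κ := ρ ⟨t, htV⟩
  have hpt : ∀ P : Polynomial C0, (∀ i, P.coeff i ≠ 0 → ((P.coeff i : C0) : E) ∈ X0) →
      Polynomial.aeval t P ∈ W0 (Λ⟮t'⟯.restrictScalars ℂ) := by
    intro P hP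
    rw [Polynomial.aeval_eq_sum_range]
    refine sum_mem fun i _ => ?_
    rw [Algebra.smul_def]
    refine mul_mem ?_ (pow_mem ?_ i)
    · by_cases h0 : P.coeff i = 0
      · rw [h0, map_zero]
        exact zero_mem _
      · have h1 := hP i h0
        refine ⟨hX0V _ h1, ?_⟩
        rw [mem_restrictScalars]
        exact Λ⟮t'⟯.algebraMap_mem ⟨_, hYmem _ h1⟩
    · exact ⟨htV, mem_adjoin_simple_self Λ t'⟩
  have hτ : ∀ a, τ a ∈ Λ⟮t'⟯ := by
    have h1 : (⊤ : IntermediateField ℂ T) ≤ (Λ⟮t'⟯.restrictScalars ℂ).comap τ := by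
      rw [← hS, adjoin_le_iff]
      intro y hy
      change τ y ∈ Λ⟮t'⟯
      obtain ⟨h2, h3⟩ := hpt (p y) (fun i hi => by
        rw [Finset.mem_biUnion]
        exact ⟨y, hy, Finset.mem_union_left _ (Finset.mem_image.2
          ⟨i, Polynomial.mem_support_iff.2 hi, rfl⟩)⟩)
      obtain ⟨h4, h5⟩ := hpt (q y) (fun i hi => by
        rw [Finset.mem_biUnion]
        exact ⟨y, hy, Finset.mem_union_right _ (Finset.mem_image.2
          ⟨i, Polynomial.mem_support_iff.2 hi, rfl⟩)⟩)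
      have h6 := hqV y hy
      have h7 : (⟨(y : E), hTV y⟩ : V) = ⟨Polynomial.aeval t (p y) * (Polynomial.aeval t (q y))⁻¹,
          V.mul_mem _ _ h2 h6⟩ := Subtype.ext (by rw [hpq y, div_eq_mul_inv])
      change ρ ⟨(y : E), hTV y⟩ ∈ Λ⟮t'⟯
      rw [h7, hmul _ _ h2 h6, hinv _ h4 h6]
      exact mul_mem h3 (inv_mem h5)
    exact fun a => h1 (by trivial : a ∈ (⊤ : IntermediateField ℂ T))
  refine pack τ Λ t' hess hr hT hτ ⊥ fun z hz => ?_
  rw [IntermediateField.mem_bot] at hz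
  obtain ⟨c, rfl⟩ := hz
  rw [τ.commutes]
  exact Λ.algebraMap_mem c

end Pool.Agent.U393.UT
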